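import Pool.Agent.Helper929_delta.XMain

/-
Delta-ideals of finite level which do not vanish on the tangent varieties of the Segre varieties.
-/

open Pool.Agent.Helper929_delta

/-- Let `J` be a Delta-ideal of finite level such that some polynomial of `J` is not zero at some tangential
tensor (equivalently, the Delta-scheme defined by `J` does not contain the tangent varieties of the Segre
varieties). Then `J` is finitely generated, and for every `p` the syzygies `F_{p+1}` of the quotient by `J` are
concentrated in finitely many degrees. -/
theorem Pool.Agent.Results.MP_b07a0a_ag.NotTangential.result (J : DeltaIdeal) (d : ℕ) (hd : J.LevelLE d)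
    (hJ : J.NotTangential) : J.FinGen ∧ ∀ p, J.SyzBounded p :=
  main_not_tangential J d hd hJ
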