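import Pool.Agent.Helper929_delta.Gen

/-
Every Delta-ideal containing the ideal of the first secant variety of the Segre variety is finitely
generated over that ideal.
-/

open Pool.Agent.Helper929_delta

/-- For every Delta-ideal `J` there are finitely many elements of `J` such that every Delta-ideal
which contains these elements and the ideal of the first secant variety contains `J`. In particular,
every Delta-ideal containing the ideal of the first secant variety is the smallest Delta-ideal
containing that ideal and a suitable finite set of its elements. -/
theorem Pool.Agent.Results.MP_b07a0a_ag.SecantFinGen.result (J : DeltaIdeal) :
    ∃ S : Set Elt, S.Finite ∧ (∀ e ∈ S, J.Has e) ∧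
      ∀ J' : DeltaIdeal, J'.HasSecant → (∀ e ∈ S, J'.Has e) → J.Sub J' :=
  finite_generation J
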